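import Pool.Agent.Helper72.LSr.N1
import Pool.Agent.Helper72.LSr.C1

/-!
# LR-I8: splitting off the last vertex, cardinalities
-/

namespace Pool.Agent.Helper75.LSr

open Finset
open scoped Classical
open Pool.Agent.Helper72.LSr

variable {V : Type} (G : SimpleGraph V) (S : Finset V)

private theorem mem_NH {w x : V} : x ∈ NH G S w ↔ x ∈ S ∧ ¬ G.Adj w x ∧ x ≠ w := by
  unfold NH; rw [mem_filter]

private theorem mem_Qs {w y x : V} : x ∈ Qs G S w y ↔ x ∈ S ∧ G.Adj w x ∧ ¬ G.Adj y x := by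
  unfold Qs; rw [mem_filter]

variable {w : V} (hw : w ∈ S)

/-- `N_w \ (Q_y ∪ Q_y') = N_w ∩ N_y ∩ N_y'` -/
private theorem sdiff_union_eq (y y' : V) :
    nb G S w \ (Qs G S w y ∪ Qs G S w y') = nb G (nb G S w ∩ nb G S y') y := by
  ext x
  rw [mem_sdiff, mem_union, mem_Qs, mem_Qs, mem_nb, mem_nb, mem_inter, mem_nb, mem_nb]
  tauto

/-- the neighbours of a non-neighbour `y'` of `w` outside `NH` are in `N_w` -/
private theorem nb_sdiff_nb {y' : V} (hy' : y' ∈ NH G S w) :
    nb G S y' \ nb G (NH G S w) y' = nb G S w ∩ nb G S y' := by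
  have h1 := ((mem_NH G S).1 hy').2.1
  ext x
  rw [mem_sdiff, mem_nb, mem_nb, mem_NH, mem_inter, mem_nb, mem_nb]
  constructor
  · rintro ⟨⟨h2, h3⟩, h4⟩
    by_cases h5 : G.Adj w x
    · exact ⟨⟨h2, h5⟩, h2, h3⟩
    · exfalso
      apply h4
      refine ⟨⟨h2, h5, ?_⟩, h3⟩
      rintro rfl
      exact h1 h3.symm
  · rintro ⟨⟨h2, h5⟩, -, h3⟩
    exact ⟨⟨h2, h3⟩, fun h => h.1.2.1 h5⟩

private theorem Phi_insert (k A B j : ℕ) {L : Finset V} {y : V} (hy : y ∉ L) :
    Phi k A B (j + 1) G (insert y L)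
      = Phi k A B (j + 1) G L + K G (nb G L y) (j + 1) - es k A B (j + 2)
        - ((nb G L y).card - EE k A B) * es k A B (j + 1) := by
  unfold Phi
  rw [K_insert G hy (j + 1), card_insert_of_notMem hy, show (2 : ℕ) = 1 + 1 from rfl,
    K_insert G hy 1, K_one]
  unfold Vl nu th nu
  push_cast
  ring

include hw

omit hw in
theorem aa_mono (k A B j : ℕ) {Q Q' : Finset V} (h : Q ⊆ Q') :
    aa k A B j G S w Q ≤ aa k A B j G S w Q' := by
  unfold aa
  have := K_mono G (sdiff_subset_sdiff (Subset.refl (nb G S w)) h) (j + 1)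
  linarith

omit hw in
theorem aa_Z (k A B j : ℕ) (x : V) :
    aa k A B j G S w (nb G S w \ nb G S x)
      = es k (A + 1) B (j + 2) - K G (nb G S w ∩ nb G S x) (j + 1) := by
  unfold aa
  rw [sdiff_sdiff_right_self]
  rfl

theorem card_Z (k A B : ℕ) (x : V) :
    (((nb G S w \ nb G S x).card : ℕ) : ℤ)
      = (k + 1 - Dv k A B G S w) + cv k A B G S w x := by
  have h := card_sdiff_add_card_inter (nb G S w) (nb G S x)
  have h' : (((nb G S w \ nb G S x).card : ℕ) : ℤ) + ((nb G S w ∩ nb G S x).card : ℤ)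
      = (nb G S w).card := by exact_mod_cast h
  unfold Dv cv
  linarith

theorem card_Q_union (k A B : ℕ) {y y' : V} (hy : y ∈ NH G S w) (hy' : y' ∈ NH G S w)
    (hadj : G.Adj y y') :
    (((Qs G S w y ∪ Qs G S w y').card : ℕ) : ℤ)
      = (k + 1 - Dv k A B G S w) + cv k A B G S y y'
        + ((nb G (NH G S w) y ∩ nb G (NH G S w) y').card : ℤ) := by
  have hsub : Qs G S w y ∪ Qs G S w y' ⊆ nb G S w := by
    intro x
    rw [mem_union, mem_Qs, mem_Qs, mem_nb]
    tauto
  have h1 := card_sdiff_add_card_eq_card hsub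
  have h2 : (nb G S w \ (Qs G S w y ∪ Qs G S w y')).card
      + (nb G (NH G S w) y ∩ nb G (NH G S w) y').card = (nb G S y ∩ nb G S y').card := by
    rw [← card_union_of_disjoint]
    · congr 1
      have h3 := ((mem_NH G S).1 hy).2.1
      ext x
      rw [mem_union, mem_sdiff, mem_union, mem_Qs, mem_Qs, mem_inter, mem_inter, mem_nb, mem_nb,
        mem_nb, mem_nb, mem_nb, mem_NH]
      have h4 : G.Adj y x → x ≠ w := by
        rintro h rfl
        exact h3 h.symm
      tauto
    · rw [disjoint_left]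
      intro x hx hx'
      rw [mem_sdiff, mem_nb] at hx
      rw [mem_inter, mem_nb, mem_NH] at hx'
      exact hx'.1.1.2.1 hx.1.2
  have h1' : ((nb G S w \ (Qs G S w y ∪ Qs G S w y')).card : ℤ)
      + ((Qs G S w y ∪ Qs G S w y').card : ℤ) = (nb G S w).card := by exact_mod_cast h1
  have h2' : ((nb G S w \ (Qs G S w y ∪ Qs G S w y')).card : ℤ)
      + ((nb G (NH G S w) y ∩ nb G (NH G S w) y').card : ℤ)
      = ((nb G S y ∩ nb G S y').card : ℤ) := by exact_mod_cast h2
  unfold Dv cv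
  linarith

theorem con_split (k A B j : ℕ) {y y' : V} (hy : y ∈ NH G S w) (hy' : y' ∈ NH G S w)
    (hadj : G.Adj y' y) :
    con k A B j G S y' (nb G (NH G S w) y')
      = aa k A B j G S w (Qs G S w y ∪ Qs G S w y')
        + con k A B j G S y' ((nb G (NH G S w) y').erase y) := by
  have hyS := ((mem_NH G S).1 hy).1
  have hyQ : y ∈ nb G (NH G S w) y' := (mem_nb G).2 ⟨hy, hadj⟩
  have hyN : y ∈ nb G S y' := (mem_nb G).2 ⟨hyS, hadj⟩
  set Q := nb G (NH G S w) y' with hQ
  have hQsub : Q ⊆ nb G S y' := nb_mono G (filter_subset _ _) y'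
  clear_value Q
  have hyL : y ∉ nb G S y' \ Q := fun h => (mem_sdiff.1 h).2 hyQ
  have hL : nb G S y' \ Q.erase y = insert y (nb G S y' \ Q) := by
    ext x
    rw [mem_sdiff, mem_erase, mem_insert, mem_sdiff]
    by_cases hx : x = y
    · subst hx
      simp [hyN]
    · tauto
  have hcard : ((nb G S y' ∩ nb G S y).card : ℤ)
      = ((nb G Q y).card : ℤ) + ((nb G (nb G S y' \ Q) y).card : ℤ) := by
    have h : (nb G S y' ∩ nb G S y).card = (nb G Q y).card + (nb G (nb G S y' \ Q) y).card := by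
      rw [← card_union_of_disjoint]
      · congr 1
        ext x
        rw [mem_inter, mem_union, mem_nb, mem_nb, mem_nb, mem_nb, mem_sdiff, mem_nb]
        have : x ∈ Q → x ∈ S ∧ G.Adj y' x := fun h => (mem_nb G).1 (hQsub h)
        tauto
      · rw [disjoint_left]
        intro x hx hx'
        exact (mem_sdiff.1 ((mem_nb G).1 hx').1).2 ((mem_nb G).1 hx).1
    exact_mod_cast h
  have hsum := add_sum_erase Q (fun x => cv k (A + 1) B G S y' x) hyQ
  have hK : K G Q 2 = K G (Q.erase y) 2 + (nb G Q y).card := by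
    rw [show (2 : ℕ) = 1 + 1 from rfl, K_erase G hyQ 1, K_one]
  unfold con Pool.Agent.Helper72.LSr.sq aa
  rw [← hsum, hK, hL, Phi_insert G k A B j hyL, sdiff_union_eq G S y y',
    ← nb_sdiff_nb G S hy', ← hQ, es_sA]
  have hc : cv k (A + 1) B G S y' y = EE k A B + k
      - (((nb G Q y).card : ℤ) + ((nb G (nb G S y' \ Q) y).card : ℤ)) := by
    unfold cv
    rw [hcard, EE_sA]
  rw [hc]
  ring

end Pool.Agent.Helper75.LSr
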